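import Pool.Agent.helper35.OT.Spec

set_option autoImplicit false

namespace Pool.Agent.helper35.OT

open Finset

private noncomputable def WAN_U (a : ℕ → ℤ) (x : ℂ) : ℂ := ∑' n, (a n : ℂ) * x ^ n

private lemma WAN_sv (a : ℕ → ℤ) (x : ℂ) : sv (gs a) x = WAN_U a x := by
  unfold sv WAN_U gs
  refine tsum_congr fun n => ?_
  rw [PowerSeries.coeff_mk]
  push_cast
  rfl

private lemma WAN_norm (a : ℕ → ℤ) (n : ℕ) (x : ℂ) : ‖(a n : ℂ) * x ^ n‖ = |(a n : ℝ)| * ‖x‖ ^ n := by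
  rw [norm_mul, norm_pow]
  congr 1
  rw [← Complex.ofReal_intCast, Complex.norm_real, Real.norm_eq_abs]

private lemma WAN_sum (a : ℕ → ℤ) (ρ : ℝ) (hs : Summable fun n => |(a n : ℝ)| * ρ ^ n) (x : ℂ) (hx : ‖x‖ ≤ ρ) :
    Summable fun n => ‖(a n : ℂ) * x ^ n‖ := by
  refine Summable.of_nonneg_of_le (fun n => norm_nonneg _) (fun n => ?_) hs
  rw [WAN_norm]
  exact mul_le_mul_of_nonneg_left (pow_le_pow_left₀ (norm_nonneg _) hx n) (abs_nonneg _)

private lemma WAN_diff (a : ℕ → ℤ) (ρ : ℝ) (hs : Summable fun n => |(a n : ℝ)| * ρ ^ n) :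
    DifferentiableOn ℂ (WAN_U a) (Metric.ball 0 ρ) := by
  unfold WAN_U
  refine Complex.differentiableOn_tsum_of_summable_norm hs (fun n => ?_) Metric.isOpen_ball (fun n w hw => ?_)
  · exact ((differentiable_const _).mul (differentiable_id.pow n)).differentiableOn
  · rw [WAN_norm]
    rw [Metric.mem_ball, dist_zero_right] at hw
    exact mul_le_mul_of_nonneg_left (pow_le_pow_left₀ (norm_nonneg _) hw.le n) (abs_nonneg _)

private lemma WAN_deriv (a : ℕ → ℤ) (ρ : ℝ) (h0 : 0 < ρ) (hs : Summable fun n => |(a n : ℝ)| * ρ ^ n) (t : ℝ) (h1 : 0 ≤ t)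
    (h2 : t < ρ) :
    deriv (WAN_U a) (t : ℂ) = ((∑' n : ℕ, ((n : ℝ) + 1) * (a (n + 1) : ℝ) * t ^ n : ℝ) : ℂ) := by
  have hz : (t : ℂ) ∈ Metric.ball (0 : ℂ) ρ := by
    rw [Metric.mem_ball, dist_zero_right, Complex.norm_real, Real.norm_eq_abs, abs_of_nonneg h1]
    exact h2
  have h := Complex.hasSum_deriv_of_summable_norm (F := fun (n : ℕ) (w : ℂ) => (a n : ℂ) * w ^ n) hs
    (fun n => ((differentiable_const _).mul (differentiable_id.pow n)).differentiableOn) Metric.isOpen_ball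
    (fun n w hw => by
      rw [WAN_norm]
      rw [Metric.mem_ball, dist_zero_right] at hw
      exact mul_le_mul_of_nonneg_left (pow_le_pow_left₀ (norm_nonneg _) hw.le n) (abs_nonneg _)) hz
  have hd : ∀ n : ℕ, deriv (fun w : ℂ => (a n : ℂ) * w ^ n) (t : ℂ) = (a n : ℂ) * ((n : ℂ) * (t : ℂ) ^ (n - 1)) := by
    intro n
    rw [deriv_const_mul _ (differentiableAt_pow n), deriv_pow_field]
  have h' : HasSum (fun n : ℕ => (a n : ℂ) * ((n : ℂ) * (t : ℂ) ^ (n - 1))) (deriv (WAN_U a) (t : ℂ)) := by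
    have he : (fun n : ℕ => (a n : ℂ) * ((n : ℂ) * (t : ℂ) ^ (n - 1))) =
        fun n : ℕ => deriv (fun w : ℂ => (a n : ℂ) * w ^ n) (t : ℂ) := by
      funext n
      exact (hd n).symm
    rw [he]
    exact h
  have h'' : HasSum (fun n : ℕ => (a (n + 1) : ℂ) * (((n + 1 : ℕ) : ℂ) * (t : ℂ) ^ n)) (deriv (WAN_U a) (t : ℂ)) := by
    have := (hasSum_nat_add_iff' 1).mpr h'
    simpa using this
  rw [← h''.tsum_eq, Complex.ofReal_tsum]
  refine tsum_congr fun n => ?_
  push_cast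
  ring

private lemma WAN_sq (a : ℕ → ℤ) (c : ℕ) (L : Polynomial ℤ) (ρ : ℝ) (h : Dat a c L ρ) (x : ℂ) (hx : ‖x‖ ≤ ρ) :
    (c : ℂ) * WAN_U a (x ^ 2) + (L.map (Int.castRingHom ℂ)).eval x = WAN_U a x ^ 2 := by
  have hs := WAN_sum a ρ h.sm x hx
  have hx2 : ‖x ^ 2‖ ≤ ρ := by
    rw [norm_pow]
    nlinarith [norm_nonneg x, h.r0, h.r1]
  have hs2 := WAN_sum a ρ h.sm (x ^ 2) hx2
  have hcp : WAN_U a x ^ 2 = ∑' n, ∑ i ∈ range (n + 1), ((a i : ℂ) * x ^ i) * ((a (n - i) : ℂ) * x ^ (n - i)) := by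
    rw [sq]
    exact tsum_mul_tsum_eq_tsum_sum_range_of_summable_norm hs hs
  have hterm : ∀ n, ∑ i ∈ range (n + 1), ((a i : ℂ) * x ^ i) * ((a (n - i) : ℂ) * x ^ (n - i)) =
      (if n % 2 = 0 then (c : ℂ) * ((a (n / 2) : ℂ) * (x ^ 2) ^ (n / 2)) else 0) + (L.coeff n : ℂ) * x ^ n := by
    intro n
    have h1 : ∑ i ∈ range (n + 1), ((a i : ℂ) * x ^ i) * ((a (n - i) : ℂ) * x ^ (n - i)) =
        (((∑ i ∈ range (n + 1), a i * a (n - i) : ℤ)) : ℂ) * x ^ n := by
      push_cast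
      rw [Finset.sum_mul]
      refine Finset.sum_congr rfl fun i hi => ?_
      rw [Finset.mem_range] at hi
      have : x ^ n = x ^ i * x ^ (n - i) := by
        rw [← pow_add]
        congr 1
        omega
      rw [this]
      ring
    rw [h1, h.fe n]
    by_cases hn : n % 2 = 0
    · rw [if_pos hn, if_pos hn]
      have : (x ^ 2) ^ (n / 2) = x ^ n := by
        rw [← pow_mul]
        congr 1
        omega
      rw [this]
      push_cast
      ring
    · rw [if_neg hn, if_neg hn]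
      push_cast
      ring
  rw [hcp]
  rw [tsum_congr hterm]
  have hE : HasSum (fun n : ℕ => (if n % 2 = 0 then (c : ℂ) * ((a (n / 2) : ℂ) * (x ^ 2) ^ (n / 2)) else 0))
      ((c : ℂ) * WAN_U a (x ^ 2)) := by
    have hb : HasSum (fun k : ℕ => (c : ℂ) * ((a k : ℂ) * (x ^ 2) ^ k)) ((c : ℂ) * WAN_U a (x ^ 2)) :=
      (hs2.of_norm.hasSum).mul_left _
    have hinj : Function.Injective (fun k : ℕ => 2 * k) := fun k l hkl => by simpa using hkl
    have hiff := hinj.hasSum_iff (f := fun n : ℕ => (if n % 2 = 0 then (c : ℂ) * ((a (n / 2) : ℂ) * (x ^ 2) ^ (n / 2)) else 0))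
      (a := (c : ℂ) * WAN_U a (x ^ 2)) (by
        intro n hn
        rw [if_neg]
        intro h2
        apply hn
        exact ⟨n / 2, by show 2 * (n / 2) = n; omega⟩)
    rw [← hiff]
    have he : ((fun n : ℕ => (if n % 2 = 0 then (c : ℂ) * ((a (n / 2) : ℂ) * (x ^ 2) ^ (n / 2)) else 0)) ∘ fun k : ℕ => 2 * k) =
        fun k : ℕ => (c : ℂ) * ((a k : ℂ) * (x ^ 2) ^ k) := by
      funext k
      have h1 : (2 * k) % 2 = 0 := by omega
      have h2 : (2 * k) / 2 = k := by omega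
      simp only [Function.comp, h1, h2, if_true]
    rw [he]
    exact hb
  have hL : HasSum (fun n : ℕ => (L.coeff n : ℂ) * x ^ n) ((L.map (Int.castRingHom ℂ)).eval x) := by
    rw [Polynomial.eval_eq_sum_range' (n := L.natDegree + 1) (by
      have := Polynomial.natDegree_map_le (f := Int.castRingHom ℂ) (p := L)
      omega)]
    have : ∀ n ∉ range (L.natDegree + 1), (L.coeff n : ℂ) * x ^ n = 0 := by
      intro n hn
      rw [Finset.mem_range, not_lt] at hn
      rw [Polynomial.coeff_eq_zero_of_natDegree_lt (by omega)]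
      simp
    have h3 : HasSum (fun n : ℕ => (L.coeff n : ℂ) * x ^ n) (∑ b ∈ range (L.natDegree + 1), (L.coeff b : ℂ) * x ^ b) := hasSum_sum_of_ne_finset_zero this
    have h4 : ∑ b ∈ range (L.natDegree + 1), (L.coeff b : ℂ) * x ^ b =
        ∑ i ∈ range (L.natDegree + 1), (L.map (Int.castRingHom ℂ)).coeff i * x ^ i := by
      refine Finset.sum_congr rfl fun i _ => ?_
      rw [Polynomial.coeff_map]
      simp
    rw [← h4]
    exact h3
  exact (hE.add hL).tsum_eq.symm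

theorem WAN : WAN_stmt := by
  intro a c L ρ h
  have hsq : Real.sqrt ρ ^ 2 = ρ := Real.sq_sqrt h.r0.le
  have hsp : 0 < Real.sqrt ρ := Real.sqrt_pos.mpr h.r0
  refine ⟨fun x => (c : ℂ) * WAN_U a (x ^ 2) + (L.map (Int.castRingHom ℂ)).eval x, ?_, ?_, ?_, ?_⟩
  · apply DifferentiableOn.analyticOnNhd _ Metric.isOpen_ball
    apply DifferentiableOn.add
    · apply DifferentiableOn.const_mul
      refine (WAN_diff a ρ h.sm).comp (differentiable_id.pow 2).differentiableOn ?_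
      intro x hx
      rw [Metric.mem_ball, dist_zero_right] at hx
      show x ^ 2 ∈ Metric.ball (0 : ℂ) ρ
      rw [Metric.mem_ball, dist_zero_right, norm_pow]
      nlinarith [norm_nonneg x]
    · exact (Polynomial.differentiable _).differentiableOn
  · show (c : ℂ) * WAN_U a ((ρ : ℂ) ^ 2) + (L.map (Int.castRingHom ℂ)).eval (ρ : ℂ) = 0
    rw [WAN_sq a c L ρ h (ρ : ℂ) (by rw [Complex.norm_real, Real.norm_eq_abs, abs_of_pos h.r0])]
    have : WAN_U a (ρ : ℂ) = 0 := by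
      unfold WAN_U
      have : (∑' n, (a n : ℂ) * (ρ : ℂ) ^ n) = ((∑' n, (a n : ℝ) * ρ ^ n : ℝ) : ℂ) := by
        rw [Complex.ofReal_tsum]
        refine tsum_congr fun n => ?_
        push_cast
        rfl
      rw [this, h.z]
      simp
    rw [this]
    simp
  · have hlt : ρ ^ 2 < ρ := by nlinarith [h.r0, h.r1]
    have hd1 := WAN_deriv a ρ h.r0 h.sm (ρ ^ 2) (by positivity) hlt
    have hUd : DifferentiableAt ℂ (WAN_U a) (((ρ : ℂ)) ^ 2) := by
      apply (WAN_diff a ρ h.sm).differentiableAt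
      apply Metric.isOpen_ball.mem_nhds
      rw [Metric.mem_ball, dist_zero_right, norm_pow, Complex.norm_real, Real.norm_eq_abs, abs_of_pos h.r0]
      exact hlt
    have hH : HasDerivAt (fun x : ℂ => (c : ℂ) * WAN_U a (x ^ 2) + (L.map (Int.castRingHom ℂ)).eval x)
        ((c : ℂ) * (deriv (WAN_U a) ((ρ : ℂ) ^ 2) * (2 * (ρ : ℂ))) +
          (Polynomial.derivative (L.map (Int.castRingHom ℂ))).eval (ρ : ℂ)) (ρ : ℂ) := by
      apply HasDerivAt.add
      · apply HasDerivAt.const_mul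
        have hp : HasDerivAt (fun x : ℂ => x ^ 2) (2 * (ρ : ℂ)) (ρ : ℂ) := by
          simpa using hasDerivAt_pow 2 (ρ : ℂ)
        exact HasDerivAt.comp (ρ : ℂ) hUd.hasDerivAt hp
      · exact Polynomial.hasDerivAt _ _
    rw [hH.deriv]
    have hp2 : ((ρ : ℂ)) ^ 2 = ((ρ ^ 2 : ℝ) : ℂ) := by push_cast; rfl
    rw [hp2, hd1]
    have hLr : (Polynomial.derivative (L.map (Int.castRingHom ℂ))).eval (ρ : ℂ) =
        (((Polynomial.derivative (L.map (Int.castRingHom ℝ))).eval ρ : ℝ) : ℂ) := by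
      rw [Polynomial.derivative_map, Polynomial.derivative_map, Polynomial.eval_map, Polynomial.eval_map]
      have := Polynomial.hom_eval₂ (Polynomial.derivative L) (Int.castRingHom ℝ) Complex.ofRealHom ρ
      rw [show ((Polynomial.eval₂ (Int.castRingHom ℝ) ρ (Polynomial.derivative L) : ℝ) : ℂ) =
        Complex.ofRealHom (Polynomial.eval₂ (Int.castRingHom ℝ) ρ (Polynomial.derivative L)) from rfl, this]
      congr 1
    rw [hLr]
    intro h0
    apply h.d
    have h1 : (((Polynomial.derivative (L.map (Int.castRingHom ℝ))).eval ρ +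
        2 * c * ρ * ∑' n : ℕ, ((n : ℝ) + 1) * (a (n + 1) : ℝ) * (ρ ^ 2) ^ n : ℝ) : ℂ) = 0 := by
      rw [← h0]
      push_cast
      ring
    exact_mod_cast h1
  · intro x hx
    show (c : ℂ) * WAN_U a (x ^ 2) + (L.map (Int.castRingHom ℂ)).eval x = _
    rw [WAN_sq a c L ρ h x hx.le, WAN_sv]

end Pool.Agent.helper35.OT
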